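import Pool.Agent.SKQ.Stmts

/-!
# Row ENE: the energy of `log |f - f c|` between two values
-/

set_option autoImplicit false

namespace Pool.Agent.SKQ.H9

open Metric Set Filter Topology MeasureTheory
open scoped ENNReal
open Helper22QC Pool.Agent.SKQ

variable {n : ℕ}

/-- the constant of one shell -/
noncomputable def c0 (n : ℕ) : ℝ≥0∞ := ENNReal.ofReal (2 ^ n) * volume (ball (0 : E n) 1)

theorem c0_ne_top (n : ℕ) : c0 n ≠ ∞ :=
  ENNReal.mul_ne_top ENNReal.ofReal_ne_top measure_ball_lt_top.ne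

theorem c0_pos (n : ℕ) : 0 < (c0 n).toReal := by
  apply ENNReal.toReal_pos _ (c0_ne_top n)
  unfold c0
  apply mul_ne_zero
  · rw [Ne, ENNReal.ofReal_eq_zero, not_le]
    positivity
  · exact (measure_ball_pos volume (0 : E n) one_pos).ne'

theorem one_shell (p : E n) {r : ℝ} (hr : 0 < r) :
    ∫⁻ z in {z : E n | r ≤ ‖z - p‖ ∧ ‖z - p‖ < 2 * r}, ENNReal.ofReal ((‖z - p‖ ^ n)⁻¹) ≤ c0 n := by
  have hS : MeasurableSet {z : E n | r ≤ ‖z - p‖ ∧ ‖z - p‖ < 2 * r} := by
    have h1 : Measurable fun z : E n => ‖z - p‖ := (measurable_id.sub_const p).norm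
    exact (measurableSet_le measurable_const h1).inter (measurableSet_lt h1 measurable_const)
  calc ∫⁻ z in {z : E n | r ≤ ‖z - p‖ ∧ ‖z - p‖ < 2 * r}, ENNReal.ofReal ((‖z - p‖ ^ n)⁻¹)
      ≤ ∫⁻ _ in {z : E n | r ≤ ‖z - p‖ ∧ ‖z - p‖ < 2 * r}, ENNReal.ofReal ((r ^ n)⁻¹) := by
        apply setLIntegral_mono' hS
        intro z hz
        apply ENNReal.ofReal_le_ofReal
        have h1 : r ^ n ≤ ‖z - p‖ ^ n := pow_le_pow_left₀ hr.le hz.1 n
        exact inv_anti₀ (pow_pos hr n) h1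
    _ = ENNReal.ofReal ((r ^ n)⁻¹) * volume {z : E n | r ≤ ‖z - p‖ ∧ ‖z - p‖ < 2 * r} := by
        rw [setLIntegral_const]
    _ ≤ ENNReal.ofReal ((r ^ n)⁻¹) * volume (ball p (2 * r)) := by
        gcongr
        intro z hz
        rw [mem_ball, dist_eq_norm]
        exact hz.2
    _ = c0 n := by
        rw [Measure.addHaar_ball_of_pos volume p (by positivity), finrank_euclideanSpace_fin, ← mul_assoc,
          ← ENNReal.ofReal_mul (by positivity)]
        unfold c0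
        congr 2
        rw [mul_pow]
        field_simp

theorem shells (p : E n) {a : ℝ} (ha : 0 < a) (N : ℕ) :
    ∫⁻ z in {z : E n | a ≤ ‖z - p‖ ∧ ‖z - p‖ < 2 ^ N * a}, ENNReal.ofReal ((‖z - p‖ ^ n)⁻¹) ≤
      N * c0 n := by
  induction N with
  | zero =>
    have h : {z : E n | a ≤ ‖z - p‖ ∧ ‖z - p‖ < 2 ^ 0 * a} = ∅ := by
      ext z
      simp only [pow_zero, one_mul, mem_ofPred_eq, mem_empty_iff_false, iff_false, not_and, not_lt]
      exact fun h => h
    rw [h, setLIntegral_empty]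
    exact zero_le
  | succ N ih =>
    have h : {z : E n | a ≤ ‖z - p‖ ∧ ‖z - p‖ < 2 ^ (N + 1) * a} ⊆
        {z : E n | a ≤ ‖z - p‖ ∧ ‖z - p‖ < 2 ^ N * a} ∪
          {z : E n | 2 ^ N * a ≤ ‖z - p‖ ∧ ‖z - p‖ < 2 * (2 ^ N * a)} := by
      rintro z ⟨h1, h2⟩
      rcases lt_or_ge ‖z - p‖ (2 ^ N * a) with h3 | h3
      · exact Or.inl ⟨h1, h3⟩
      · refine Or.inr ⟨h3, ?_⟩
        rw [← mul_assoc, ← pow_succ']
        exact h2
    refine (lintegral_mono_set h).trans ((lintegral_union_le _ _ _).trans ?_)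
    rw [Nat.cast_succ, add_mul, one_mul]
    exact add_le_add ih (one_shell p (by positivity))

theorem exists_N {a b : ℝ} (ha : 0 < a) (hab : a ≤ b) :
    ∃ N : ℕ, b < 2 ^ N * a ∧ (N : ℝ) ≤ 2 * (1 + Real.log (b / a)) := by
  have hl2 : (1 : ℝ) / 2 < Real.log 2 := by
    have := Real.log_two_gt_d9
    linarith
  have hl0 : 0 < Real.log 2 := by linarith
  have hba : 1 ≤ b / a := by
    rw [le_div_iff₀ ha, one_mul]
    exact hab
  have hlog : 0 ≤ Real.log (b / a) := Real.log_nonneg hba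
  set x : ℝ := Real.log (b / a) / Real.log 2 with hx
  have hx0 : 0 ≤ x := div_nonneg hlog hl0.le
  refine ⟨⌊x⌋₊ + 1, ?_, ?_⟩
  · have h1 : x < (⌊x⌋₊ : ℝ) + 1 := Nat.lt_floor_add_one x
    have h2 : Real.log (b / a) < ((⌊x⌋₊ + 1 : ℕ) : ℝ) * Real.log 2 := by
      rw [hx, div_lt_iff₀ hl0] at h1
      push_cast
      exact h1
    rw [← Real.log_pow] at h2
    have h3 : b / a < 2 ^ (⌊x⌋₊ + 1) :=
      (Real.log_lt_log_iff (by positivity) (by positivity)).1 h2
    rw [div_lt_iff₀ ha] at h3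
    exact h3
  · push_cast
    have h1 : (⌊x⌋₊ : ℝ) ≤ x := Nat.floor_le hx0
    have h2 : x ≤ 2 * Real.log (b / a) := by
      rw [hx, div_le_iff₀ hl0]
      nlinarith
    linarith

theorem ene : Pool.Agent.SKQ.ENEStmt := by
  intro n hn
  refine ⟨2 * (c0 n).toReal, by have := c0_pos n; positivity, ?_⟩
  intro R K a b f F c S hK hloc hc hS hSR ha hab hfS
  set p : E n := f c with hp
  obtain ⟨N, hN1, hN2⟩ := exists_N ha hab
  have hSm : MeasurableSet S := hS.measurableSet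
  set A : Set (E n) := {z : E n | a ≤ ‖z - p‖ ∧ ‖z - p‖ ≤ b} with hA
  have hnm : Measurable fun z : E n => ‖z - p‖ := (measurable_id.sub_const p).norm
  have hAm : MeasurableSet A :=
    (measurableSet_le measurable_const hnm).inter (measurableSet_le hnm measurable_const)
  let g : E n → ℝ≥0∞ := A.indicator fun z => ENNReal.ofReal (K * (‖z - p‖ ^ n)⁻¹)
  have hgm : Measurable g :=
    (((hnm.pow_const n).inv.const_mul K).ennreal_ofReal).indicator hAm
  have hvol := hloc.vol g hgm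
  -- the right side
  have hR : ∫⁻ z in f '' ball 0 R, g z ≤ ENNReal.ofReal K * (N * c0 n) := by
    calc ∫⁻ z in f '' ball 0 R, g z ≤ ∫⁻ z, g z := setLIntegral_le_lintegral _ _
      _ = ∫⁻ z in A, ENNReal.ofReal (K * (‖z - p‖ ^ n)⁻¹) := lintegral_indicator hAm _
      _ = ∫⁻ z in A, ENNReal.ofReal K * ENNReal.ofReal ((‖z - p‖ ^ n)⁻¹) := by
          refine lintegral_congr fun z => ?_
          rw [ENNReal.ofReal_mul hK]
      _ = ENNReal.ofReal K * ∫⁻ z in A, ENNReal.ofReal ((‖z - p‖ ^ n)⁻¹) :=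
          lintegral_const_mul _ ((hnm.pow_const n).inv.ennreal_ofReal)
      _ ≤ ENNReal.ofReal K * ∫⁻ z in {z : E n | a ≤ ‖z - p‖ ∧ ‖z - p‖ < 2 ^ N * a},
            ENNReal.ofReal ((‖z - p‖ ^ n)⁻¹) := by
          gcongr
          intro z hz
          exact ⟨hz.1, hz.2.trans_lt hN1⟩
      _ ≤ ENNReal.ofReal K * (N * c0 n) := by
          gcongr
          exact shells p ha N
  -- the integrand
  have hae : ∀ᵐ y ∂(volume.restrict S), ENNReal.ofReal ((‖F y‖ / ‖f y - p‖) ^ n) ≤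
      g (f y) * ENNReal.ofReal (F y).det := by
    rw [ae_restrict_iff' hSm]
    filter_upwards [hloc.qc] with y hy hyS
    have h1 := hy (hSR hyS)
    obtain ⟨h2, h3⟩ := hfS y hyS
    have hpos : 0 < ‖f y - p‖ := ha.trans_le h2
    have h4 : g (f y) = ENNReal.ofReal (K * (‖f y - p‖ ^ n)⁻¹) :=
      Set.indicator_of_mem (show f y ∈ A from ⟨h2, h3⟩) _
    rw [h4, ← ENNReal.ofReal_mul (by positivity)]
    apply ENNReal.ofReal_le_ofReal
    rw [div_pow, div_eq_mul_inv]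
    have h5 : 0 ≤ (‖f y - p‖ ^ n)⁻¹ := by positivity
    calc ‖F y‖ ^ n * (‖f y - p‖ ^ n)⁻¹ ≤ (K * (F y).det) * (‖f y - p‖ ^ n)⁻¹ :=
          mul_le_mul_of_nonneg_right h1 h5
      _ = K * (‖f y - p‖ ^ n)⁻¹ * (F y).det := by ring
  have hle : ∫⁻ y in S, ENNReal.ofReal ((‖F y‖ / ‖f y - p‖) ^ n) ≤
      ENNReal.ofReal K * (N * c0 n) := by
    calc ∫⁻ y in S, ENNReal.ofReal ((‖F y‖ / ‖f y - p‖) ^ n) ≤
          ∫⁻ y in S, g (f y) * ENNReal.ofReal (F y).det := lintegral_mono_ae hae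
      _ ≤ ∫⁻ y in ball 0 R, g (f y) * ENNReal.ofReal (F y).det := lintegral_mono_set hSR
      _ = ∫⁻ z in f '' ball 0 R, g z := hvol
      _ ≤ _ := hR
  have hfin : ENNReal.ofReal K * (N * c0 n) ≠ ∞ :=
    ENNReal.mul_ne_top ENNReal.ofReal_ne_top (ENNReal.mul_ne_top (ENNReal.natCast_ne_top N)
      (c0_ne_top n))
  have hmeas : AEStronglyMeasurable (fun y => (‖F y‖ / ‖f y - p‖) ^ n) (volume.restrict S) := by
    have h1 : AEStronglyMeasurable F (volume.restrict S) := (hloc.sob S hSR hS).meas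
    have h2 : AEStronglyMeasurable f (volume.restrict S) :=
      (hloc.cont.mono hSR).aestronglyMeasurable hSm
    have h3 : AEMeasurable (fun y => ‖F y‖) (volume.restrict S) := h1.norm.aemeasurable
    have h4 : AEMeasurable (fun y => ‖f y - p‖) (volume.restrict S) :=
      (h2.sub aestronglyMeasurable_const).norm.aemeasurable
    exact ((h3.div h4).pow_const n).aestronglyMeasurable
  have hnn : ∀ y, 0 ≤ (‖F y‖ / ‖f y - p‖) ^ n := fun y => by positivity
  refine ⟨⟨hmeas, ?_⟩, ?_⟩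
  · rw [hasFiniteIntegral_iff_ofReal (Filter.Eventually.of_forall hnn)]
    exact hle.trans_lt (lt_top_iff_ne_top.2 hfin)
  · rw [integral_eq_lintegral_of_nonneg_ae (Filter.Eventually.of_forall hnn) hmeas]
    have h1 : (∫⁻ y in S, ENNReal.ofReal ((‖F y‖ / ‖f y - p‖) ^ n)).toReal ≤
        (ENNReal.ofReal K * (N * c0 n)).toReal := ENNReal.toReal_mono hfin hle
    refine h1.trans ?_
    rw [ENNReal.toReal_mul, ENNReal.toReal_mul, ENNReal.toReal_ofReal hK, ENNReal.toReal_natCast]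
    have h2 := c0_pos n
    calc K * ((N : ℝ) * (c0 n).toReal) ≤
          K * ((2 * (1 + Real.log (b / a))) * (c0 n).toReal) := by gcongr
      _ = 2 * (c0 n).toReal * K * (1 + Real.log (b / a)) := by ring

end Pool.Agent.SKQ.H9
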