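import Pool.Agent.SKQ.Stmts
import Pool.Agent.SKQ.Kit

/-!
# Row VOL: the change of variables formula from continuous functions
-/

set_option autoImplicit false

namespace Pool.Agent.SKQ.H9

open Metric Set Filter Topology MeasureTheory
open scoped ENNReal NNReal
open Helper22QC Pool.Agent.SKQ

variable {n : ℕ}

/-- the radii -/
noncomputable def rad (k : ℕ) : ℝ := 1 - 1 / (k + 2)

theorem rad_lt (k : ℕ) : rad k < 1 := by
  unfold rad
  have : (0 : ℝ) < 1 / (k + 2) := by positivity
  linarith

theorem exists_rad {r : ℝ} (hr : r < 1) : ∃ k : ℕ, r ≤ rad k := by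
  obtain ⟨k, hk⟩ := exists_nat_gt (1 / (1 - r))
  refine ⟨k, ?_⟩
  have h1 : 0 < 1 - r := by linarith
  have h2 : 1 / (k + 2 : ℝ) ≤ 1 - r := by
    rw [div_le_iff₀ (by positivity)]
    rw [div_lt_iff₀ h1] at hk
    nlinarith
  unfold rad
  linarith

theorem union_rad : ⋃ k : ℕ, closedBall (0 : E n) (rad k) = ball 0 1 := by
  ext z
  rw [mem_iUnion, mem_ball_zero_iff]
  constructor
  · rintro ⟨k, hk⟩
    rw [mem_closedBall_zero_iff] at hk
    exact hk.trans_lt (rad_lt k)
  · intro hz
    obtain ⟨k, hk⟩ := exists_rad hz
    exact ⟨k, mem_closedBall_zero_iff.2 hk⟩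

theorem vol : Pool.Agent.SKQ.VOLStmt := by
  intro n K f F hn hG hint g hg
  set P : Measure (E n) := volume.restrict (ball 0 1) with hP
  have hfc : ContinuousOn f (ball 0 1) := hG.sob.continuousOn isOpen_ball
  have hfm : AEMeasurable f P := hfc.aemeasurable measurableSet_ball
  have hFm : AEStronglyMeasurable F P := by
    rw [hP, ← union_rad, aestronglyMeasurable_iUnion_iff]
    intro k
    exact (hG.sob _ (closedBall_subset_ball (rad_lt k)) (isCompact_closedBall _ _)).meas
  have hdm : AEStronglyMeasurable (fun y => (F y).det) P :=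
    ContinuousLinearMap.continuous_det.comp_aestronglyMeasurable hFm
  -- the sign of the determinant
  have hKd : ∀ᵐ y ∂P, 0 ≤ K * (F y).det := by
    rw [hP, ae_restrict_iff' measurableSet_ball]
    filter_upwards [hG.qc] with y hy hyb
    exact (pow_nonneg (norm_nonneg _) n).trans (hy hyb)
  have hd0 : ∀ᵐ y ∂P, 0 ≤ (F y).det := by
    rcases lt_or_ge 0 K with hK | hK
    · filter_upwards [hKd] with y hy
      exact nonneg_of_mul_nonneg_right hy hK
    · exfalso
      have hd1 : ∀ᵐ y ∂P, (F y).det ≤ 0 := by
        rw [hP, ae_restrict_iff' measurableSet_ball]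
        filter_upwards [hG.qc] with y hy hyb
        have h1 := hy hyb
        by_contra hpos
        rw [not_le] at hpos
        have h2 : ‖F y‖ ^ n ≤ 0 := h1.trans (mul_nonpos_of_nonpos_of_nonneg hK hpos.le)
        have h3 : ‖F y‖ ^ n = 0 := le_antisymm h2 (pow_nonneg (norm_nonneg _) n)
        have h4 : F y = 0 := norm_eq_zero.1 (pow_eq_zero_iff (by omega) |>.1 h3)
        rw [h4] at hpos
        have h5 : (0 : Mt n).det = 0 := by
          have hne : Module.finrank ℝ (E n) ≠ 0 := by
            rw [finrank_euclideanSpace_fin]
            omega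
          have h6 : (0 : Mt n).det = LinearMap.det (0 : E n →ₗ[ℝ] E n) := rfl
          rw [h6, LinearMap.det_zero, zero_pow hne]
        rw [h5] at hpos
        exact lt_irrefl _ hpos
      obtain ⟨χ, hχ1, hχ0, hχc, hχI⟩ := exists_continuous_one_zero_of_isCompact
        (isCompact_singleton (x := (0 : E n))) (isOpen_ball (x := (0 : E n)) (ε := 1 / 2)).isClosed_compl
        (by
          rw [Set.disjoint_compl_right_iff_subset]
          intro z hz
          rw [Set.mem_singleton_iff.1 hz]
          exact mem_ball_self (by norm_num))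
      have hts : tsupport χ ⊆ ball (0 : E n) 1 := by
        have h1 : Function.support χ ⊆ closedBall (0 : E n) (1 / 2) := by
          intro z hz
          by_contra hcon
          apply hz
          apply hχ0
          intro hzb
          exact hcon (ball_subset_closedBall hzb)
        exact (closure_minimal h1 isClosed_closedBall).trans
          (closedBall_subset_ball (by norm_num))
      have h1 := hint χ χ.continuous hχc hts
      have h2 : ∫ y in ball 0 1, χ (f y) * (F y).det ≤ 0 := by
        apply integral_nonpos_of_ae
        filter_upwards [hd1] with y hy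
        exact mul_nonpos_of_nonneg_of_nonpos (hχI _).1 hy
      have h3 : 0 < ∫ z, χ z := by
        apply χ.continuous.integral_pos_of_hasCompactSupport_nonneg_nonzero hχc
          (fun z => (hχI z).1) (x := 0)
        rw [hχ1 (Set.mem_singleton _)]
        exact one_ne_zero
      linarith
  -- the formula for nonnegative continuous functions
  have hA : ∀ h : E n → ℝ, Continuous h → HasCompactSupport h → tsupport h ⊆ ball 0 1 →
      (∀ z, 0 ≤ h z) →
      ∫⁻ y, ENNReal.ofReal (F y).det * ENNReal.ofReal (h (f y)) ∂P =
        ∫⁻ z, ENNReal.ofReal (h z) ∂P := by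
    intro h hc hcs hts h0
    by_cases hz : ∀ z, h z = 0
    · simp only [hz, ENNReal.ofReal_zero, mul_zero]
    · push Not at hz
      obtain ⟨z0, hz0⟩ := hz
      have hpos : 0 < ∫ z, h z := hc.integral_pos_of_hasCompactSupport_nonneg_nonzero hcs h0 hz0
      have hI := hint h hc hcs hts
      have hii : Integrable (fun y => h (f y) * (F y).det) P := by
        by_contra hcon
        rw [integral_undef hcon] at hI
        linarith
      have h1 := ofReal_integral_eq_lintegral_ofReal hii (by
        filter_upwards [hd0] with y hy
        exact mul_nonneg (h0 _) hy)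
      have h2 := ofReal_integral_eq_lintegral_ofReal (hc.integrable_of_hasCompactSupport hcs)
        (Filter.Eventually.of_forall h0) (μ := volume)
      rw [hI, h2] at h1
      have h3 : ∫⁻ z, ENNReal.ofReal (h z) = ∫⁻ z, ENNReal.ofReal (h z) ∂P := by
        rw [hP, setLIntegral_eq_of_support_subset]
        intro z hz
        apply hts
        apply subset_tsupport
        intro hzero
        apply hz
        change ENNReal.ofReal (h z) = 0
        rw [hzero, ENNReal.ofReal_zero]
      rw [← h3, h1]
      refine lintegral_congr fun y => ?_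
      rw [mul_comm, ← ENNReal.ofReal_mul (h0 _)]
  -- the measures
  set w : E n → ℝ≥0∞ := fun y => ENNReal.ofReal (F y).det with hw
  have hwm : AEMeasurable w P := hdm.aemeasurable.ennreal_ofReal
  set ρ : Measure (E n) := P.withDensity w with hρ
  have hfρ : AEMeasurable f ρ := hfm.mono_ac (withDensity_absolutelyContinuous _ _)
  set ν : Measure (E n) := ρ.map f with hν
  have hνint : ∀ φ : E n → ℝ≥0∞, Measurable φ → ∫⁻ z, φ z ∂ν = ∫⁻ y, w y * φ (f y) ∂P := by
    intro φ hφ
    rw [hν, lintegral_map' hφ.aemeasurable hfρ, hρ]
    exact lintegral_withDensity_eq_lintegral_mul₀ hwm (hφ.comp_aemeasurable hfm)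
  -- equality on closed balls
  have hk : ∀ k : ℕ, ν.restrict (closedBall 0 (rad k)) = P.restrict (closedBall 0 (rad k)) := by
    intro k
    obtain ⟨r', hr1, hr2⟩ := exists_between (rad_lt k)
    obtain ⟨χ, hχ1, hχ0, hχc, hχI⟩ := exists_continuous_one_zero_of_isCompact
      (isCompact_closedBall (0 : E n) (rad k)) (isOpen_ball (x := (0 : E n)) (ε := r')).isClosed_compl
      (by
        rw [Set.disjoint_compl_right_iff_subset]
        exact closedBall_subset_ball hr1)
    have hts : tsupport χ ⊆ ball (0 : E n) 1 := by
      have h1 : Function.support χ ⊆ closedBall (0 : E n) r' := by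
        intro z hz
        by_contra hcon
        apply hz
        apply hχ0
        intro hzb
        exact hcon (ball_subset_closedBall hzb)
      exact (closure_minimal h1 isClosed_closedBall).trans (closedBall_subset_ball hr2)
    set c : E n → ℝ≥0∞ := fun z => ENNReal.ofReal (χ z) with hc
    have hcm : Measurable c := χ.continuous.measurable.ennreal_ofReal
    have hmul : ∀ φ : BoundedContinuousFunction (E n) ℝ≥0,
        ∫⁻ z, c z * φ z ∂ν = ∫⁻ z, c z * φ z ∂P := by
      intro φ
      have hφc : Continuous fun z => χ z * (φ z : ℝ) :=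
        χ.continuous.mul (NNReal.continuous_coe.comp φ.continuous)
      have hsupp : Function.support (fun z => χ z * (φ z : ℝ)) ⊆ Function.support χ := by
        intro z hz hz0
        apply hz
        change χ z * _ = 0
        rw [hz0, zero_mul]
      have h1 := hA (fun z => χ z * (φ z : ℝ)) hφc (hχc.mul_right)
        ((closure_mono hsupp).trans hts) (fun z => mul_nonneg (hχI z).1 (φ z).2)
      have h2 : ∀ z, ENNReal.ofReal (χ z * (φ z : ℝ)) = c z * φ z := by
        intro z
        rw [ENNReal.ofReal_mul (hχI z).1, ENNReal.ofReal_coe_nnreal]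
      simp only [h2] at h1
      exact (hνint (fun z => c z * φ z)
        (hcm.mul (φ.continuous.measurable.coe_nnreal_ennreal))).trans h1
    have hfinP : ∫⁻ z, c z ∂P ≠ ∞ := by
      have h1 : ∫⁻ z, c z ∂P ≤ ∫⁻ _, 1 ∂P := by
        apply lintegral_mono
        intro z
        change ENNReal.ofReal (χ z) ≤ 1
        rw [ENNReal.ofReal_le_one]
        exact (hχI z).2
      rw [lintegral_one] at h1
      refine (h1.trans_lt ?_).ne
      rw [hP, Measure.restrict_apply_univ]
      exact measure_ball_lt_top
    have hfinν : ∫⁻ z, c z ∂ν ≠ ∞ := by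
      have h1 := hmul 1
      simp only [BoundedContinuousFunction.coe_one, Pi.one_apply, ENNReal.coe_one, mul_one] at h1
      rw [h1]
      exact hfinP
    have hf1 : IsFiniteMeasure (ν.withDensity c) := isFiniteMeasure_withDensity hfinν
    have heq : ν.withDensity c = P.withDensity c := by
      apply ext_of_forall_lintegral_eq_of_IsFiniteMeasure
      intro φ
      have h2 : Measurable fun z => (φ z : ℝ≥0∞) := φ.continuous.measurable.coe_nnreal_ennreal
      rw [lintegral_withDensity_eq_lintegral_mul _ hcm h2,
        lintegral_withDensity_eq_lintegral_mul _ hcm h2]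
      exact hmul φ
    have hres : ∀ μ : Measure (E n), (μ.withDensity c).restrict (closedBall 0 (rad k)) =
        μ.restrict (closedBall 0 (rad k)) := by
      intro μ
      rw [restrict_withDensity measurableSet_closedBall]
      have h1 : c =ᵐ[μ.restrict (closedBall 0 (rad k))] 1 := by
        rw [Filter.EventuallyEq, ae_restrict_iff' measurableSet_closedBall]
        refine Filter.Eventually.of_forall fun z hz => ?_
        change ENNReal.ofReal (χ z) = 1
        rw [hχ1 hz]
        exact ENNReal.ofReal_one
      rw [withDensity_congr_ae h1, withDensity_one]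
    rw [← hres ν, heq, hres]
  have hball : ν.restrict (ball 0 1) = P.restrict (ball 0 1) := by
    rw [← union_rad, Measure.restrict_iUnion_congr]
    exact hk
  -- conclusion
  have hPP : P.restrict (ball 0 1) = P := by
    rw [hP, Measure.restrict_restrict measurableSet_ball, Set.inter_self]
  have h1 : ∫⁻ z, (ball (0 : E n) 1).indicator g z ∂ν = ∫⁻ z, g z ∂P := by
    rw [lintegral_indicator measurableSet_ball, hball, hPP]
  rw [← h1, hνint _ (hg.indicator measurableSet_ball)]
  rw [hP]
  apply setLIntegral_congr_fun measurableSet_ball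
  intro y hy
  have h2 : f y ∈ ball (0 : E n) 1 := hG.bij.mapsTo hy
  change g (f y) * w y = w y * (ball (0 : E n) 1).indicator g (f y)
  rw [Set.indicator_of_mem h2, mul_comm]

end Pool.Agent.SKQ.H9
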